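import Pool.Agent.Y787.FV.Stm2

/-!
# Necessity for free Boolean algebras (helper569)
-/

namespace Pool.Agent.Y569.FV

open Pool.Agent.Y787.FV Order

universe u v w

section

variable {X F : Type w} [BooleanAlgebra F] {ι : X → F}

/-- the representation by sets of valuations reflects the order -/
theorem reflects (hF : IsFreeBoolean ι) (k : BoundedLatticeHom F (Set (X → Prop)))
    (hk : ∀ x, k (ι x) = {ν | ν x}) (a b : F) (h : k a ⊆ k b) : a ≤ b := by
  by_contra hab
  obtain ⟨J, hJ, hbJ, haJ⟩ := DistribLattice.prime_ideal_of_disjoint_filter_ideal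
    (F := PFilter.principal a) (I := Ideal.principal b) (by
      rw [Set.disjoint_left]
      intro c hc hc'
      exact hab (le_trans hc hc'))
  have hcompl : ∀ c : F, cᶜ ∉ J ↔ c ∈ J := by
    intro c
    constructor
    · intro hc
      exact (hJ.mem_or_compl_mem (x := c)).resolve_right hc
    · intro hc hc'
      have h1 : c ⊔ cᶜ ∈ J := J.sup_mem hc hc'
      rw [sup_compl_eq_top] at h1
      exact hJ.top_notMem h1
  let S : BooleanSubalgebra F :=
    { carrier := {c | (fun x => ι x ∉ J) ∈ k c ↔ c ∉ J}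
      supClosed' := by
        intro c hc d hd
        change _ ∈ k (c ⊔ d) ↔ c ⊔ d ∉ J
        rw [map_sup, Ideal.sup_mem_iff, not_and_or]
        exact or_congr hc hd
      infClosed' := by
        intro c hc d hd
        change _ ∈ k (c ⊓ d) ↔ c ⊓ d ∉ J
        have h1 : c ⊓ d ∈ J ↔ c ∈ J ∨ d ∈ J :=
          ⟨fun h => hJ.mem_or_mem h, fun h => h.elim (fun h => J.lower inf_le_left h)
            (fun h => J.lower inf_le_right h)⟩
        rw [map_inf, h1, not_or]
        exact and_congr hc hd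
      compl_mem' := by
        intro c hc
        change _ ∈ k cᶜ ↔ cᶜ ∉ J
        have h1 : k cᶜ = (k c)ᶜ := map_compl' k c
        rw [h1, hcompl]
        exact (not_congr hc).trans not_not
      bot_mem' := by
        change _ ∈ k ⊥ ↔ ⊥ ∉ J
        rw [map_bot]
        exact ⟨fun h => h.elim, fun h => (h J.bot_mem).elim⟩ }
  have hS := hF.generated S (fun x => by
    change _ ∈ k (ι x) ↔ ι x ∉ J
    rw [hk]
    exact Iff.rfl)
  have h1 : (fun x => ι x ∉ J) ∈ k a ↔ a ∉ J := hS a
  have h2 : (fun x => ι x ∉ J) ∈ k b ↔ b ∉ J := hS b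
  have h3 : a ∉ J := fun h => Set.disjoint_left.1 haJ (le_refl a) h
  have h4 : b ∈ J := hbJ (le_refl b)
  exact (h2.1 (h (h1.2 h3))) h4

/-- `z` depends only on the variables in `T` -/
def Supp (T : Finset X) (z : Set (X → Prop)) : Prop :=
  ∀ ν ν' : X → Prop, (∀ x ∈ T, ν x ↔ ν' x) → (ν ∈ z ↔ ν' ∈ z)

theorem exists_supp (hF : IsFreeBoolean ι) (k : BoundedLatticeHom F (Set (X → Prop)))
    (hk : ∀ x, k (ι x) = {ν | ν x}) (c : F) : ∃ T : Finset X, Supp T (k c) := by
  classical
  let S : BooleanSubalgebra F :=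
    { carrier := {c | ∃ T : Finset X, Supp T (k c)}
      supClosed' := by
        rintro c ⟨T, hT⟩ d ⟨T', hT'⟩
        refine ⟨T ∪ T', fun ν ν' h => ?_⟩
        rw [map_sup]
        exact or_congr (hT ν ν' fun x hx => h x (Finset.mem_union_left _ hx))
          (hT' ν ν' fun x hx => h x (Finset.mem_union_right _ hx))
      infClosed' := by
        rintro c ⟨T, hT⟩ d ⟨T', hT'⟩
        refine ⟨T ∪ T', fun ν ν' h => ?_⟩
        rw [map_inf]
        exact and_congr (hT ν ν' fun x hx => h x (Finset.mem_union_left _ hx))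
          (hT' ν ν' fun x hx => h x (Finset.mem_union_right _ hx))
      compl_mem' := by
        rintro c ⟨T, hT⟩
        refine ⟨T, fun ν ν' h => ?_⟩
        have h1 : k cᶜ = (k c)ᶜ := map_compl' k c
        rw [h1]
        exact not_congr (hT ν ν' h)
      bot_mem' := by
        refine ⟨∅, fun ν ν' h => ?_⟩
        rw [map_bot]
        exact Iff.rfl }
  exact hF.generated S (fun x => ⟨{x}, fun ν ν' h => by
    rw [hk]
    exact h x (Finset.mem_singleton_self x)⟩) c

theorem finite_supp (S : Finset X) : {z : Set (X → Prop) | Supp S z}.Finite := by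
  classical
  have h1 : {s : Finset X | s ⊆ S}.Finite := by
    refine (S.powerset.finite_toSet).subset ?_
    intro s hs
    exact Finset.mem_coe.2 (Finset.mem_powerset.2 hs)
  have h2 : {B : Set (Finset X) | B ⊆ {s : Finset X | s ⊆ S}}.Finite := h1.finite_subsets
  let f : Set (X → Prop) → Set (Finset X) := fun z => {s | s ⊆ S ∧ (fun x => x ∈ s) ∈ z}
  refine Set.Finite.of_finite_image (f := f) (h2.subset ?_) ?_
  · rintro _ ⟨z, _, rfl⟩
    intro s hs
    exact hs.1
  · intro z hz z' hz' hzz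
    ext ν
    have h3 : ∀ z : Set (X → Prop), Supp S z → (ν ∈ z ↔ (S.filter fun x => ν x) ∈ f z) := by
      intro z hz
      have h4 : ν ∈ z ↔ (fun x => x ∈ S.filter fun x => ν x) ∈ z := by
        apply hz
        intro x hx
        simp [hx]
      rw [h4]
      exact ⟨fun h => ⟨Finset.filter_subset _ _, h⟩, fun h => h.2⟩
    rw [h3 z hz, h3 z' hz', hzz]

end

theorem bn : t_BN.{u, w} := by
  classical
  intro P _ X F _ ι hF φ hφ
  obtain ⟨k, hk⟩ := hF.extends_map (Set (X → Prop)) (fun x => {ν | ν x})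
  choose T hT using fun p : P => exists_supp hF k hk (φ p)
  have hmono : ∀ p q : P, p ≤ q ↔ k (φ p) ⊆ k (φ q) := by
    intro p q
    rw [hφ]
    exact ⟨fun h => OrderHomClass.mono k h, fun h => reflects hF k hk _ _ h⟩
  let D : Finset X × Set (X → Prop) → Set P := fun r =>
    {p | r.1 ⊆ T p ∧ Supp r.1 r.2 ∧ k (φ p) ⊆ r.2}
  let U : Finset X × Set (X → Prop) → Set P := fun r =>
    {q | r.1 ⊆ T q ∧ Supp r.1 r.2 ∧ r.2 ⊆ k (φ q)}
  refine cover_of D U ?_ ?_ ?_
  · rintro r p ⟨_, _, hp⟩ q ⟨_, _, hq⟩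
    exact (hmono p q).2 (hp.trans hq)
  · intro p q hpq
    have hpq' := (hmono p q).1 hpq.le
    have hz : Supp (T p ∩ T q) {ν | ∃ ν' ∈ k (φ p), ∀ x ∈ T p ∩ T q, ν' x ↔ ν x} := by
      intro ν₁ ν₂ h
      constructor
      · rintro ⟨ν', h1, h2⟩
        exact ⟨ν', h1, fun x hx => (h2 x hx).trans (h x hx)⟩
      · rintro ⟨ν', h1, h2⟩
        exact ⟨ν', h1, fun x hx => (h2 x hx).trans (h x hx).symm⟩
    refine ⟨(T p ∩ T q, {ν | ∃ ν' ∈ k (φ p), ∀ x ∈ T p ∩ T q, ν' x ↔ ν x}),
      ⟨Finset.inter_subset_left, hz, fun ν hν => ⟨ν, hν, fun _ _ => Iff.rfl⟩⟩,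
      ⟨Finset.inter_subset_right, hz, ?_⟩⟩
    rintro ν ⟨ν', h1, h2⟩
    have h3 : (fun x => if x ∈ T p then ν' x else ν x) ∈ k (φ p) := by
      rw [hT p _ ν' (fun x hx => by simp [hx])]
      exact h1
    have h4 := hpq' h3
    rw [hT q _ ν (fun x hx => ?_)] at h4
    · exact h4
    · by_cases hxp : x ∈ T p
      · simp only [hxp, if_true]
        exact h2 x (Finset.mem_inter.2 ⟨hxp, hx⟩)
      · simp only [hxp, if_false]
  · intro p
    have hfin : (⋃ S ∈ (T p).powerset, (fun z : Set (X → Prop) => (S, z)) ''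
        {z : Set (X → Prop) | Supp S z}).Finite :=
      Set.Finite.biUnion (Finset.finite_toSet _) (fun S _ => (finite_supp S).image _)
    refine hfin.subset ?_
    rintro ⟨S, z⟩ (h | h)
    · exact Set.mem_biUnion (Finset.mem_powerset.2 h.1) ⟨z, h.2.1, rfl⟩
    · exact Set.mem_biUnion (Finset.mem_powerset.2 h.1) ⟨z, h.2.1, rfl⟩

end Pool.Agent.Y569.FV
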